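import Pool.Agent.H943R6.MC.Final

/-!
# Minimum size problems for partial truth tables, relative to an oracle
-/

set_option autoImplicit false

namespace Pool.Agent.W886.PM

open Pool.Agent.NPC Pool.Agent.H620R2.Gauge Pool.Agent.H943R6.MC Pool.Agent.H622R2.Ckt

/-- The function `f` agrees with the partial truth table of arity `n` given by the lists `T`
(values) and `M` (mask; the entry `i` is defined if and only if `M` has `true` at `i`). -/
def Agrees (n : ℕ) (f : List Bool → Bool) (T M : List Bool) : Prop :=
  T.length = 2 ^ n ∧ M.length = 2 ^ n ∧
    ∀ i < 2 ^ n, M.getD i false = true → (table n f).getD i false = T.getD i false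

/-- Partial MCSP relative to `A`: the codes of the pairs of a partial truth table and `1 ^ s`, such
that some circuit with gates for `A`, of size at most `s`, agrees with the partial table. -/
def PMCSP (A : Oracle) : Set (List Bool) :=
  {y | ∃ (n s : ℕ) (T M : List Bool) (C : Circuit), C.size ≤ s ∧ Agrees n (C.eval A) T M ∧
    y = pairBits (pairBits T M) (List.replicate s true)}

/-- What an inner node of a branching program does: it reads a variable, or it asks the oracle
about a word, given by a list of constants and variables. -/
abbrev Lbl : Type := ℕ ⊕ List (Bool ⊕ ℕ)

/-- A branching program (relative to an oracle): the list of its inner nodes in topological order,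
the first one is the source. A node has a label and two successors (for the answers `false` and
`true`); the successor `a` is the node number `a` among the following nodes, where the two sinks
(first the one for `false`, then the one for `true`) follow after the last inner node. -/
abbrev BP : Type := List (Lbl × ℕ × ℕ)

/-- the letter of the word -/
def item (x : List Bool) : Bool ⊕ ℕ → Bool
  | .inl b => b
  | .inr i => x.getD i false

/-- the answer at a node -/
def ans (A : Oracle) (x : List Bool) : Lbl → Bool
  | .inl i => x.getD i false
  | .inr l => A (l.map (item x))

/-- the outputs on input `x` when one starts at the nodes and at the sinks -/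
def vals (A : Oracle) (x : List Bool) : BP → List Bool
  | [] => [false, true]
  | q :: P => (vals A x P).getD (if ans A x q.1 = true then q.2.2 else q.2.1) false :: vals A x P

/-- the output of the program -/
def bout (A : Oracle) (P : BP) (x : List Bool) : Bool := (vals A x P).getD 0 false

/-- the label only uses the variables with numbers less than `n` -/
def LOk (n : ℕ) : Lbl → Prop
  | .inl i => i < n
  | .inr l => ∀ i : ℕ, Sum.inr i ∈ l → i < n

/-- the program uses only the variables with numbers less than `n`, and its edges go to later
nodes or to the sinks -/
def WF (n : ℕ) : BP → Prop
  | [] => True
  | q :: P => LOk n q.1 ∧ q.2.1 < P.length + 2 ∧ q.2.2 < P.length + 2 ∧ WF n P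

/-- the length of the question of a node -/
def lsz : Lbl → ℕ
  | .inl _ => 0
  | .inr l => l.length

/-- the size of a program: the number of the nodes, the two sinks included, and the total length of
the questions -/
def bsize (P : BP) : ℕ := P.length + 2 + (P.map (fun q => lsz q.1)).sum

/-- Partial MBPSP relative to `A`: the same for branching programs. -/
def PMBPSP (A : Oracle) : Set (List Bool) :=
  {y | ∃ (n s : ℕ) (T M : List Bool) (P : BP), 1 ≤ n ∧ WF n P ∧ bsize P ≤ s ∧
    Agrees n (bout A P) T M ∧ y = pairBits (pairBits T M) (List.replicate s true)}

/-- the question of a node -/
def bqn (x : List Bool) : Lbl → List Bool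
  | .inl _ => []
  | .inr l => l.map (item x)

/-- the questions of the nodes -/
def bq (x : List Bool) (P : BP) : List (List Bool) := P.map (fun q => bqn x q.1)

/-- the answer at a node, if the answer of the oracle is `b` -/
def ansv (x : List Bool) (b : Bool) : Lbl → Bool
  | .inl i => x.getD i false
  | .inr _ => b

/-- the outputs when one starts at the nodes, computed from the answers of the oracle -/
def bev (x : List Bool) : List ((Lbl × ℕ × ℕ) × Bool) → List Bool
  | [] => [false, true]
  | q :: P => (bev x P).getD (if ansv x q.2 q.1.1 = true then q.1.2.2 else q.1.2.1) false ::
      bev x P

/-- from instances with total tables to instances with partial tables, and with `c` added to the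
size -/
def lift (c : ℕ) (y : List Bool) : List Bool :=
  pairBits (pairBits (unpair y).1 ((unpair y).1.map (fun _ => true)))
    ((unpair y).2 ++ List.replicate c true)

end Pool.Agent.W886.PM
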