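import Pool.Agent.W764.PMGEN
import Pool.Agent.W790.PMADV
import Pool.Agent.W400.PMTOTC
import Pool.Agent.W164.PMTOTB
import Pool.Agent.W918.PMPLB
import Pool.Agent.W225.PM.Cnt
import Pool.Agent.W976.PMNPX
import Pool.Agent.W290.PMNPC
import Pool.Agent.W53.PMBEV
import Pool.Agent.W403.PMNPB

/-!
# All parts together
-/

set_option autoImplicit false

namespace Pool.Agent.W886.PM

open Pool.Agent.NPC Pool.Agent.H620R2.Gauge Pool.Agent.H943R6.MC Pool.Agent.H622R2.Ckt Finset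
open Pool.Agent.W900.CH
open Pool.Agent.H628R3.RO (randomOracle)
open MeasureTheory

theorem np_C (A : Oracle) : IsNP A (PMCSP A) :=
  Pool.Agent.W290.PMNPC.task Pool.Agent.W976.PMNPX.task A

theorem np_B (A : Oracle) : IsNP A (PMBPSP A) :=
  Pool.Agent.W403.PMNPB.task Pool.Agent.W53.PMBEV.task A

/-- the null sets -/
theorem null_of (c : ℕ) (P : Oracle → Set (List Bool))
    (hpl : ∀ (A : Oracle) (j N : ℕ) (hN : 2 ^ (2 ^ j + 2 * j + 1) ≤ N) (s : ℕ), 8 ≤ j →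
      lift c (inst j (fun i => pre N A (pos N j hN s i))) ∈ P A)
    (hfew : ∀ (A : Oracle) (j : ℕ), 8 ≤ j → ∃ F : Finset (Fin (2 ^ (2 * j)) → Bool),
      (∀ T, lift c (inst j T) ∈ P A → T ∈ F) ∧ (F.card : ℝ) ≤ (1 / 4 : ℝ) * 2 ^ 2 ^ (2 * j))
    (f : ℕ → ℝ) (hf : Cond f) : Null f {A : Oracle | WithAdvice (IsNP A) (P A)ᶜ} := by
  classical
  refine Pool.Agent.W764.PMGEN.task (fun A => {y | lift c y ∈ P A}) hpl ?_ f hf _ ?_
  · intro A j hj
    obtain ⟨F, h1, h2⟩ := hfew A j hj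
    refine le_trans ?_ h2
    have h3 := card_le_card (s := univ.filter (fun T : Fin (2 ^ (2 * j)) → Bool =>
      inst j T ∈ {y | lift c y ∈ P A})) (t := F) (fun T hT => h1 T (mem_filter.1 hT).2)
    exact_mod_cast h3
  · intro A hA
    exact Pool.Agent.W790.PMADV.task A (P A) c hA

theorem null_C (f : ℕ → ℝ) (hf : Cond f) :
    Null f {A : Oracle | WithAdvice (IsNP A) (PMCSP A)ᶜ} := by
  classical
  refine null_of 0 PMCSP (fun A j N hN s hj => ?_) (fun A j hj => ?_) f hf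
  · rw [Pool.Agent.W400.PMTOTC.task]
    exact planted (fun _ => True) (fun _ _ => trivial) A hN s
  · refine ⟨univ.filter (fun T : Fin (2 ^ (2 * j)) → Bool => inst j T ∈ MCSP A), ?_,
      few_easy (fun _ => True) A hj⟩
    intro T hT
    exact mem_filter.2 ⟨mem_univ _, (Pool.Agent.W400.PMTOTC.task A j T).1 hT⟩

theorem null_B (f : ℕ → ℝ) (hf : Cond f) :
    Null f {A : Oracle | WithAdvice (IsNP A) (PMBPSP A)ᶜ} := by
  classical
  refine null_of 2 PMBPSP (fun A j N hN s hj => ?_) (fun A j hj => ?_) f hf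
  · rw [Pool.Agent.W164.PM.task A j _ (by omega)]
    exact Pool.Agent.W918.PMPLB.task A j N hN s
  · refine ⟨univ.filter (fun T : Fin (2 ^ (2 * j)) → Bool => ∃ P : BP, WF (2 * j) P ∧
      bsize P ≤ H943R6.MC.sz j + 2 ∧ table (2 * j) (bout A P) = List.ofFn T), ?_, ?_⟩
    · intro T hT
      exact mem_filter.2 ⟨mem_univ _, (Pool.Agent.W164.PM.task A j T (by omega)).1 hT⟩
    · convert Pool.Agent.W225.PM.task A j hj

/-- the thresholds -/
theorem main (P : Oracle → Set (List Bool)) (hNP : ∀ A, IsNP A (P A))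
    (hn : ∀ f : ℕ → ℝ, Cond f → Null f {A : Oracle | WithAdvice (IsNP A) (P A)ᶜ}) (g : ℕ → ℝ) :
    ((∀ ε : ℝ, 0 < ε → ∃ᶠ n : ℕ in Filter.atTop, g n ≤ 2 ^ (n : ℝ) ^ ε) →
      ∀ᵐ O ∂randomOracle, ∀ A : Oracle, Close g O A →
        ¬ WithAdvice (IsNP A) (P A)ᶜ ∧ ¬ IsP A (P A) ∧ ¬ IsZPP A (P A)) ∧
    ((¬ ∀ ε : ℝ, 0 < ε → ∃ᶠ n : ℕ in Filter.atTop, g n ≤ 2 ^ (n : ℝ) ^ ε) →
      ∀ O : Oracle, (∃ A : Oracle, Close g O A ∧ IsP A (P A)) ∧
        ∃ A : Oracle, Close g O A ∧ IsZPP A (P A) ∧ ∃ L, IsNP A L ∧ ¬ IsP A L) := by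
  refine ⟨fun hg => ?_, fun hg O => ⟨?_, ?_⟩⟩
  · have h := ae_far_P (fun f hf => hn f hf) hg
    filter_upwards [h] with O hO A hA
    have h1 : ¬ WithAdvice (IsNP A) (P A)ᶜ := hO A hA
    refine ⟨h1, fun h2 => h1 h2.compl.isNP.withAdvice, fun h2 => ?_⟩
    exact h1 (isZPP_compl h2).isNP.withAdvice
  · obtain ⟨A, h1, h2⟩ := exists_close_PSPACE hg O
    exact ⟨A, h1, isP_of_reduces (h2 _ (hNP A).isPSPACE)⟩
  · obtain ⟨A, h1, h2, L, h3, h4⟩ := exists_close_ZPP hg O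
    exact ⟨A, h1, h2 _ (Or.inr (hNP A).isPSPACE), L, h3.isNP, h4⟩

end Pool.Agent.W886.PM
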