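import Pool.Agent.W886.PM.Defs
import Pool.Agent.W900.CH.NELev

/-!
# Statements
-/

set_option autoImplicit false

namespace Pool.Agent.W886.PM

open Pool.Agent.NPC Pool.Agent.H620R2.Gauge Pool.Agent.H943R6.MC Pool.Agent.H622R2.Ckt Finset

open Classical in
/-- the null sets, for languages with planted instances and few easy tables -/
def S_GEN : Prop :=
  ∀ S : Oracle → Set (List Bool),
    (∀ (A : Oracle) (j N : ℕ) (hN : 2 ^ (2 ^ j + 2 * j + 1) ≤ N) (s : ℕ), 8 ≤ j →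
      inst j (fun i => pre N A (pos N j hN s i)) ∈ S A) →
    (∀ (A : Oracle) (j : ℕ), 8 ≤ j →
      ((univ.filter (fun T : Fin (2 ^ (2 * j)) → Bool => inst j T ∈ S A)).card : ℝ) ≤
        (1 / 4 : ℝ) * 2 ^ 2 ^ (2 * j)) →
    ∀ f : ℕ → ℝ, Cond f → ∀ O : Set Oracle,
      (∀ A ∈ O, ∃ (L' : Set (List Bool)) (h : ℕ → List Bool) (p' : Polynomial ℕ), IsNP A L' ∧
        (∀ n, (h n).length ≤ p'.eval n) ∧
        ∀ j T, (inst j T ∉ S A ↔ pairBits (inst j T) (h (len j)) ∈ L')) → Null f O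

/-- the classes with advice and a reduction -/
def S_ADV : Prop :=
  ∀ (A : Oracle) (L : Set (List Bool)) (c : ℕ), WithAdvice (IsNP A) Lᶜ →
    ∃ (L' : Set (List Bool)) (h : ℕ → List Bool) (p' : Polynomial ℕ), IsNP A L' ∧
      (∀ n, (h n).length ≤ p'.eval n) ∧
      ∀ j T, (lift c (inst j T) ∉ L ↔ pairBits (inst j T) (h (len j)) ∈ L')

/-- partial tables which are total: circuits -/
def S_TOTC : Prop :=
  ∀ (A : Oracle) (j : ℕ) (T : Fin (2 ^ (2 * j)) → Bool),
    (lift 0 (inst j T) ∈ PMCSP A ↔ inst j T ∈ MCSP A)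

/-- partial tables which are total: branching programs -/
def S_TOTB : Prop :=
  ∀ (A : Oracle) (j : ℕ) (T : Fin (2 ^ (2 * j)) → Bool), 1 ≤ j →
    (lift 2 (inst j T) ∈ PMBPSP A ↔ ∃ P : BP, WF (2 * j) P ∧ bsize P ≤ H943R6.MC.sz j + 2 ∧
      table (2 * j) (bout A P) = List.ofFn T)

/-- the planted tables have small branching programs -/
def S_PLB : Prop :=
  ∀ (A : Oracle) (j N : ℕ) (hN : 2 ^ (2 ^ j + 2 * j + 1) ≤ N) (s : ℕ),
    ∃ P : BP, WF (2 * j) P ∧ bsize P ≤ H943R6.MC.sz j + 2 ∧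
      table (2 * j) (bout A P) = List.ofFn (fun i => pre N A (pos N j hN s i))

open Classical in
/-- few tables have small branching programs -/
def S_CNT : Prop :=
  ∀ (A : Oracle) (j : ℕ), 8 ≤ j →
    ((univ.filter (fun T : Fin (2 ^ (2 * j)) → Bool => ∃ P : BP, WF (2 * j) P ∧
      bsize P ≤ H943R6.MC.sz j + 2 ∧ table (2 * j) (bout A P) = List.ofFn T)).card : ℝ) ≤
        (1 / 4 : ℝ) * 2 ^ 2 ^ (2 * j)

/-- existential quantifiers in front of problems in `NP` -/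
def S_NPX : Prop :=
  ∀ (A : Oracle) (L : Set (List Bool)) (p : Polynomial ℕ) (c : List Bool → Bool)
    (φ : List Bool → List Bool), Poly c → Poly φ → IsNP A L →
    IsNP A {y | ∃ w : List Bool, w.length ≤ p.eval y.length ∧ c (pairBits w y) = true ∧
      φ (pairBits w y) ∈ L}

/-- Partial MCSP is in `NP` -/
def S_NPC : Prop := ∀ A : Oracle, IsNP A (PMCSP A)

/-- computing with branching programs -/
def S_BEV : Prop :=
  (∀ (A : Oracle) (x : List Bool) (P : BP), vals A x P = bev x (P.zip ((bq x P).map A))) ∧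
  Poly (fun p : List Bool × BP => bq p.1 p.2) ∧
  Poly (fun p : List Bool × List ((Lbl × ℕ × ℕ) × Bool) => bev p.1 p.2) ∧
  (∃ t : ℕ × BP → Bool, Poly t ∧ ∀ n P, t (n, P) = true ↔ WF n P) ∧
  Poly bsize

/-- Partial MBPSP is in `NP` -/
def S_NPB : Prop := ∀ A : Oracle, IsNP A (PMBPSP A)

end Pool.Agent.W886.PM
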